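import Mathlib
import Pool.Agent.N793.LV.Thr

set_option autoImplicit false

/-!
# Montgomery's large value conjecture: one threshold is enough for the larger ones

Let `R(V)` be the largest number of integers `t ∈ [0, T]` with `|D(t)| ≥ V`, over all
`D(t) = ∑_{N ≤ n ≤ 2N} b_n n^{it}` with `|b_n| ≤ 1`. Then, for the same `T`, the product `R(V) V²` is
nonincreasing in `V` up to a logarithm: `R(V') ≥ c min((V/V')² R(V) / (1 + log N), T)` for `V' ≤ V`.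

So, for `T ≤ N^A` with a fixed `A > 1`, every power bound `N^ρ`, `ρ < A`, at the threshold `N^σ₀` gives
the bound `(1 + log N) N^(ρ - 2(σ - σ₀))` at all thresholds `N^σ`, `σ ≥ σ₀`. In particular Q1 for one `σ₀`
implies Q1 for all `σ ≥ σ₀`, and Q1 (for all `σ > 1/2`) is equivalent to: for every `σ > 1/2` there are
`O(N)` values above `N^σ`.

Proof: take the signed sum `∑_j ± D(t - u_j)` of translates by integers `u_j`, chosen so that the union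
of the translates of the set of large values is large. For each point of the union the signed sum is
large for at least half of the signs, and its coefficients are `O((J log N)^{1/2})` for most signs.
-/

namespace Pool.Agent.Results.MP_ecd12e_nt.OneThreshold

open Finset

/-- `D(t) = ∑_{n=N}^{2N} b_n n^{it}` -/
noncomputable def D (N : ℕ) (b : ℕ → ℂ) (t : ℝ) : ℂ :=
  ∑ n ∈ Icc N (2 * N), b n * Complex.exp (Complex.I * (t : ℂ) * (Real.log (n : ℝ) : ℂ))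

/-- For all `N ≤ T ≤ N^A`, all `|b_n| ≤ 1` and all sets `W` of integers in `[0, T]` with `|D(t)| > N^σ` on `W`:
`|W| ≤ C g(N)`. -/
def Bound (A σ : ℝ) (g : ℝ → ℝ) : Prop :=
  ∃ C : ℝ, ∀ (N : ℕ) (T : ℝ) (b : ℕ → ℂ) (W : Finset ℤ), 1 ≤ N → (N : ℝ) ≤ T → T ≤ (N : ℝ) ^ A →
    (∀ n ∈ Icc N (2 * N), ‖b n‖ ≤ 1) →
    (∀ t ∈ W, 0 ≤ (t : ℝ) ∧ (t : ℝ) ≤ T ∧ (N : ℝ) ^ σ < ‖D N b t‖) → (W.card : ℝ) ≤ C * g N

/-- Q1 for the exponents `A` and `σ` -/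
def MontgomeryAt (A σ : ℝ) : Prop := ∀ ε : ℝ, 0 < ε → Bound A σ (fun x => x ^ (2 - 2 * σ + ε))

theorem result :
    -- `R(V) V²` is nonincreasing up to a logarithm
    (∃ c : ℝ, 0 < c ∧ ∀ (N : ℕ) (T V V' : ℝ) (b : ℕ → ℂ) (W : Finset ℤ), 1 ≤ N → 0 ≤ T →
      (∀ n ∈ Icc N (2 * N), ‖b n‖ ≤ 1) → 0 < V' → V' ≤ V →
      (∀ t ∈ W, 0 ≤ (t : ℝ) ∧ (t : ℝ) ≤ T ∧ V ≤ ‖D N b t‖) →
      ∃ (b' : ℕ → ℂ) (W' : Finset ℤ), (∀ n ∈ Icc N (2 * N), ‖b' n‖ ≤ 1) ∧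
        (∀ t ∈ W', 0 ≤ (t : ℝ) ∧ (t : ℝ) ≤ T ∧ V' ≤ ‖D N b' t‖) ∧
        c * min ((V / V') ^ 2 * W.card / (1 + Real.log N)) T ≤ W'.card) ∧
    -- the transfer of power bounds to larger thresholds
    (∀ A ρ σ₀ σ : ℝ, 1 ≤ A → ρ < A → σ₀ ≤ σ → Bound A σ₀ (fun x => x ^ ρ) →
      Bound A σ (fun x => (1 + Real.log x) * x ^ (ρ - 2 * (σ - σ₀)))) ∧
    -- Q1 for one `σ₀` implies Q1 for all `σ ≥ σ₀`
    (∀ A σ₀ σ : ℝ, 1 < A → 1 / 2 < σ₀ → σ₀ ≤ σ → MontgomeryAt A σ₀ → MontgomeryAt A σ) ∧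
    -- Q1 for a fixed `A` is equivalent to `O(N)` (or `O(N^(1+ε))`) values above `N^σ` for every `σ > 1/2`
    (∀ A : ℝ, 1 < A →
      ((∀ σ : ℝ, 1 / 2 < σ → MontgomeryAt A σ) ↔ ∀ σ : ℝ, 1 / 2 < σ → Bound A σ (fun x => x)) ∧
      ((∀ σ : ℝ, 1 / 2 < σ → MontgomeryAt A σ) ↔
        ∀ σ : ℝ, 1 / 2 < σ → ∀ ε : ℝ, 0 < ε → Bound A σ (fun x => x ^ (1 + ε)))) ∧
    -- Q1
    ((∀ σ A : ℝ, 1 / 2 < σ → 1 ≤ A → MontgomeryAt A σ) ↔
      ∀ σ A : ℝ, 1 / 2 < σ → 1 ≤ A → Bound A σ (fun x => x)) := by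
  have hid : ∀ {A σ : ℝ}, Bound A σ (fun x => x ^ (1 : ℝ)) ↔ Bound A σ (fun x => x) := by
    intro A σ
    simp only [Real.rpow_one]
  have himp : ∀ A σ : ℝ, 1 / 2 < σ → MontgomeryAt A σ → Bound A σ (fun x => x) := by
    intro A σ hσ h
    have h1 := h (2 * σ - 1) (by linarith)
    rw [show 2 - 2 * σ + (2 * σ - 1) = 1 by ring] at h1
    exact hid.1 h1
  have himp2 : ∀ A σ ε : ℝ, 0 < ε → Bound A σ (fun x => x) → Bound A σ (fun x => x ^ (1 + ε)) := by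
    intro A σ ε hε h
    exact Pool.Agent.N793.LV.Bd_pow (by linarith : (1 : ℝ) ≤ 1 + ε) (hid.2 h)
  have hiff : ∀ A : ℝ, 1 < A →
      ((∀ σ : ℝ, 1 / 2 < σ → MontgomeryAt A σ) ↔ ∀ σ : ℝ, 1 / 2 < σ → Bound A σ (fun x => x)) ∧
      ((∀ σ : ℝ, 1 / 2 < σ → MontgomeryAt A σ) ↔
        ∀ σ : ℝ, 1 / 2 < σ → ∀ ε : ℝ, 0 < ε → Bound A σ (fun x => x ^ (1 + ε))) := by
    intro A hA
    refine ⟨⟨fun h σ hσ => himp A σ hσ (h σ hσ), fun h => ?_⟩,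
      ⟨fun h σ hσ ε hε => himp2 A σ ε hε (himp A σ hσ (h σ hσ)), fun h => ?_⟩⟩
    · exact Pool.Agent.N793.LV.LV_of_almost hA (fun σ hσ ε hε => himp2 A σ ε hε (h σ hσ))
    · exact Pool.Agent.N793.LV.LV_of_almost hA h
  refine ⟨⟨1 / 512, by norm_num, ?_⟩, ?_, ?_, hiff, ?_⟩
  · intro N T V V' b W hN hT hb hV' hVV' hW
    obtain ⟨b', W', h1, h2, h3, h4⟩ := Pool.Agent.N793.LV.mono_int N hN b hT hb hV' hVV' W
      (fun t ht => ⟨(hW t ht).1, (hW t ht).2.1⟩) (fun t ht => (hW t ht).2.2)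
    exact ⟨b', W', h1, fun t ht => ⟨(h2 t ht).1, (h2 t ht).2, h3 t ht⟩, by linarith⟩
  · intro A ρ σ₀ σ hA hρ hσ h
    exact Pool.Agent.N793.LV.transfer hA hρ hσ h
  · intro A σ₀ σ hA hσ₀ hσ h
    exact Pool.Agent.N793.LV.LV_mono hA hσ₀ hσ h
  · refine ⟨fun h σ A hσ hA => himp A σ hσ (h σ A hσ hA), fun h σ A hσ hA ε hε => ?_⟩
    have h1 := (hiff (A + 1) (by linarith)).1.2 (fun σ hσ => h σ (A + 1) hσ (by linarith)) σ hσ ε hε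
    exact Pool.Agent.N793.LV.Bd_A (A := A + 1) (A' := A) (σ := σ)
      (f := fun x => x ^ (2 - 2 * σ + ε)) (by linarith) h1

end Pool.Agent.Results.MP_ecd12e_nt.OneThreshold
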