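import Pool.Agent.N282.PM.All

/-!
# Montgomery's large value conjecture after a small random perturbation of the integers: explicit dependence on the
size of the perturbation

For every `A` there is `C` such that for all `N ≥ 2` and ALL `0 < δ ≤ 1`, if `U_n` are independent and uniform on
`[0,1]`, then with probability at least `1 - N^(-A)` the following holds for ALL complex coefficients `b_n`, all
`V > 0` and all finite `1`-separated sets `W ⊂ [0, N^A]`: if `V² ≥ C (log N)^5 ∑ |b_n|²` and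
`|∑_{N ≤ n ≤ 2N} b_n (n + δ U_n)^{it}| ≥ V` for all `t ∈ W`, then

`|W| ≤ C (log N)^5 (N/δ) ∑ |b_n|² / V²`.

For `|b_n| ≤ 1`, `V = N^σ`, `σ > 1/2`, this is the bound of Q1, `|W| ≤ 2 C (log N)^5 N^(2-2σ)/δ`, with a power of a
logarithm in place of `N^ε` if `δ` is fixed; it holds with the loss `N^ε` for perturbations of size `N^(-ε)`. Here the
coefficients are normalised in `ℓ²`; for the integers themselves the `ℓ²` form is false (Bourgain).
There is no hypothesis. Parts were formalised by helpers 477, 593, 394, 615, 954, 11.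
-/

set_option autoImplicit false

open MeasureTheory Filter Topology

namespace Pool.Agent.Results.MP_ecd12e_nt.PerturbedIntegers

/-- The Dirichlet polynomial `∑_{N ≤ n ≤ 2N} b_n x_n^{it}` with the numbers `x_n` in place of the integers `n`. -/
noncomputable def D (x : ℕ → ℝ) (b : ℕ → ℂ) (N : ℕ) (t : ℝ) : ℂ :=
  ∑ n ∈ Finset.Icc N (2 * N), b n * Complex.exp (Complex.I * t * Real.log (x n))

/-- `∑_{N ≤ n ≤ 2N} |b_n|²` -/
noncomputable def G (b : ℕ → ℂ) (N : ℕ) : ℝ := ∑ n ∈ Finset.Icc N (2 * N), ‖b n‖ ^ 2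

/-- The large value estimate for all coefficients, all thresholds and all `1`-separated sets in `[0, N^A]`. -/
def LargeValues (x : ℕ → ℝ) (N : ℕ) (A δ C : ℝ) : Prop :=
  ∀ (b : ℕ → ℂ) (V : ℝ) (W : Finset ℝ), (∀ t ∈ W, 0 ≤ t ∧ t ≤ (N : ℝ) ^ A) →
    (∀ t ∈ W, ∀ u ∈ W, t ≠ u → 1 ≤ |t - u|) → C * (Real.log N) ^ 5 * G b N ≤ V ^ 2 → 0 < V →
    (∀ t ∈ W, V ≤ ‖D x b N t‖) → (W.card : ℝ) ≤ C * (Real.log N) ^ 5 * (N / δ) * G b N / V ^ 2

/-- For every `A > 0` there is `C` such that for all `N ≥ 2` and all `0 < δ ≤ 1` the numbers `n + δ U_n` satisfy the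
large value estimate with probability at least `1 - N^(-A)`. -/
theorem result (A : ℝ) (hA : 0 < A) : ∃ C : ℝ, 0 < C ∧ ∀ (Ω : Type) (_ : MeasurableSpace Ω) (P : Measure Ω)
    (_ : IsProbabilityMeasure P) (U : ℕ → Ω → ℝ), (∀ n, Measurable (U n)) → ProbabilityTheory.iIndepFun U P →
    (∀ n, P.map (U n) = volume.restrict (Set.Icc 0 1)) → ∀ (N : ℕ) (δ : ℝ), 2 ≤ N → 0 < δ → δ ≤ 1 →
      (P {ω | ¬ LargeValues (fun n => n + δ * U n ω) N A δ C}).toReal ≤ (N : ℝ) ^ (-A) :=
  Pool.Agent.N282.PM.DV_one Pool.Agent.N282.PM.a_MAIN A hA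

end Pool.Agent.Results.MP_ecd12e_nt.PerturbedIntegers
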