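import Pool.Agent.N282.PM.All
import Pool.Agent.N282.PM.Beu2

/-!
# Montgomery's large value conjecture for generalised integers with randomly perturbed primes

Replace every prime `p` by `ξ_p = p + δ_p U_p`, `U_p` independent and uniform on `[0,1]`, `0 < δ_p ≤ 1` decaying more
slowly than every power of `p`, and every integer `n = ∏ p^k` by the generalised integer `x_n = ∏ ξ_p^k` of Beurling.
The multiplicative structure is kept. Almost surely the bound of Q1, `|W| ≤ C N^(2-2σ+ε)`, holds for all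
`σ > 1 - θ/2` and all coefficients supported on the integers which have a prime factor `> N^θ`; in particular for all
`σ > 1/2` if the coefficients are supported on the primes. The coefficients are normalised in `ℓ²`. There is no
hypothesis. Parts of the project were formalised by helpers 477, 593, 394, 615, 954, 11, 592.
-/

set_option autoImplicit false

open MeasureTheory Filter Topology

namespace Pool.Agent.Results.MP_ecd12e_nt.RandomPrimes

/-- The generalised integers: `z ξ n = ∏ ξ_p^k` if `n = ∏ p^k`. -/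
noncomputable def z (ξ : ℕ → ℝ) (n : ℕ) : ℝ := n.factorization.prod fun p k => ξ p ^ k

/-- The Dirichlet polynomial `∑_{N ≤ n ≤ 2N} b_n x_n^{it}` with the numbers `x_n` in place of the integers `n`. -/
noncomputable def D (x : ℕ → ℝ) (b : ℕ → ℂ) (N : ℕ) (t : ℝ) : ℂ :=
  ∑ n ∈ Finset.Icc N (2 * N), b n * Complex.exp (Complex.I * t * Real.log (x n))

/-- Almost surely: for all `A, θ, ε > 0` and `σ > 1 - θ/2` there is `C` such that for all `N ≥ 2`, `T ≤ N^A`, all `b_n`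
with `∑ |b_n|² ≤ N + 1` and `b_n = 0` unless `n` has a prime factor `> N^θ`, and all sets `W` of integers in `[0, T]` at
which `|∑_{N ≤ n ≤ 2N} b_n x_n^{it}| > N^σ` one has `|W| ≤ C N^(2-2σ+ε)`. -/
theorem result {Ω : Type} [MeasurableSpace Ω] (P : Measure Ω) [IsProbabilityMeasure P] (U : ℕ → Ω → ℝ)
    (hm : ∀ n, Measurable (U n)) (hi : ProbabilityTheory.iIndepFun U P)
    (hU : ∀ n, P.map (U n) = volume.restrict (Set.Icc 0 1)) (δ : ℕ → ℝ) (hδ : ∀ n, 0 < δ n ∧ δ n ≤ 1)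
    (hδ' : ∀ ε : ℝ, 0 < ε → ∃ c : ℝ, 0 < c ∧ ∀ n : ℕ, 1 ≤ n → c * (n : ℝ) ^ (-ε) ≤ δ n) :
    ∀ᵐ ω ∂P, ∀ A θ σ ε : ℝ, 0 < A → 0 < θ → 1 - θ / 2 < σ → 0 < ε → ∃ C : ℝ, ∀ (N : ℕ) (T : ℝ), 2 ≤ N →
      T ≤ (N : ℝ) ^ A → ∀ (b : ℕ → ℂ) (W : Finset ℤ), ∑ n ∈ Finset.Icc N (2 * N), ‖b n‖ ^ 2 ≤ N + 1 →
        (∀ n, b n ≠ 0 → ∃ p : ℕ, p.Prime ∧ p ∣ n ∧ (N : ℝ) ^ θ < p) →
        (∀ t ∈ W, 0 ≤ t ∧ (t : ℝ) ≤ T ∧ (N : ℝ) ^ σ < ‖D (z fun p => p + δ p * U p ω) b N t‖) →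
          (W.card : ℝ) ≤ C * (N : ℝ) ^ (2 - 2 * σ + ε) := by
  have hpos : ∀ᵐ ω ∂P, ∀ n, 0 ≤ U n ω := by
    rw [ae_all_iff]
    intro n
    have h1 : ∀ᵐ u ∂(P.map (U n)), 0 ≤ u := by
      rw [hU n]
      exact (ae_restrict_mem measurableSet_Icc).mono fun u hu => hu.1
    exact ae_of_ae_map (hm n).aemeasurable h1
  filter_upwards [Pool.Agent.N282.PM.a_AS Ω _ P inferInstance U (fun n => (n : ℝ)) δ 1 hm hi hU le_rfl
    Pool.Agent.N282.PM.spread_id hδ hδ', hpos] with ω hω hω'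
  intro A θ σ ε hA hθ hσ hε
  obtain ⟨C, hC⟩ := Pool.Agent.N282.PM.Beu_LV _ hω (fun p hp => by
    have h1 : (0 : ℝ) < p := by exact_mod_cast hp.pos
    have h2 := (hδ p).1
    have h3 := hω' p
    show 0 < (p : ℝ) + δ p * U p ω
    positivity) A θ σ ε hA hθ hσ hε
  exact ⟨C, fun N T hN hT b W hb hsupp hW => hC N T hN hT b W hb (fun n _ hn => hsupp n hn) hW⟩

end Pool.Agent.Results.MP_ecd12e_nt.RandomPrimes
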